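import Pool.Agent.Y226.FK.Chain
import Pool.Agent.Helper993.Nil
import Pool.Agent.Helper993.Metric

/-!
# MP_154d63_an: every number in `(0, 2 log N]` is a limit of normalised log-determinants

For a closed Riemannian manifold `M`, a chain `C` of normal subgroups `Γ = Γ_0 > Γ_1 > ⋯` of finite
index with trivial intersection in `Γ = π₁(M)` (`NormalChain`) and a matrix `A` over `ℤΓ` let
`normalised C A k = tr (log (A_k* A_k)) / [Γ : Γ_k]`. The question is whether these numbers always
converge to `tr_{LΓ} (log A* A)`. The answer is negative (starting file `NilmanifoldNoLimit`: a chain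
without a limit). We prove much more: the limit can exist along every chain considered and take
all values in an interval.

Let `M` be the quotient of the real Heisenberg group by the integral Heisenberg group `Γ`, with
generators `t`, `u`, and for `N ≥ 2` let `A = 1 + N t - N u t` (a `1 × 1` matrix). Then for EVERY
real number `c` with `0 < c ≤ 2 log N` there is a chain for which the limit exists and is `c`. At most
one of these values is `tr_{LΓ} (log A* A)`, so for all the others (with one fixed `M` and `A`) the
sequence converges to a wrong value, and the error can be arbitrarily large as `N → ∞`.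

Proof: let `Γ_i` be the congruence subgroup of level `k_i`, `k_i` odd, `k_i ∣ k_{i+1}`. The determinant
of `A` over `Γ / Γ_i` is the product over `g ∣ k = k_i` of the numbers
`∏_η (1 + N^k (1 - η^g)^{k/g})^{φ(g)}`, `η^k = 1`, which are nonzero integers. Only the `η` with
`η^g ≠ 1` contribute, each about `k log N`, so that the limit is `2 (1 - P) log N` with
`P = lim (1/k_i²) ∑_{g ∣ k_i} g φ(g)`, which is the product of the numbers `1 - 1/q + 1/q²` over the
prime divisors `q` of the numbers `k_i` if these are square-free. As `∑ 1/q` diverges every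
`P` in `[0, 1)` occurs.

The last statement (a chain without a limit, for `N = 10`) is the theorem of the starting file.
-/

open scoped Manifold ContDiff Topology
open Pool.Agent.Helper993.LT

namespace Pool.Agent.Results.MP_154d63_an.EveryLimitOccurs

/-- There is a closed Riemannian 3-manifold `M` and elements `a N` of the integral group ring of
`Γ = π₁(M)` such that for all `N ≥ 2` and all `c` with `0 < c ≤ 2 log N` the numbers
`tr (log (A_k* A_k)) / [Γ : Γ_k]`, `A = (a N)`, converge to `c` for some chain of normal subgroups of
finite index with trivial intersection. For `A = (a 10)` they have no limit in `[-∞, ∞]` for some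
other chain. -/
theorem result : ∃ (M : Type) (_ : TopologicalSpace M)
    (_ : ChartedSpace (EuclideanSpace ℝ (Fin 3)) M) (_ : IsManifold (𝓡 3) ∞ M)
    (_ : Bundle.ContMDiffRiemannianMetric (𝓡 3) ∞ (EuclideanSpace ℝ (Fin 3))
      (fun x : M => TangentSpace (𝓡 3) x)),
    CompactSpace M ∧ T2Space M ∧ ConnectedSpace M ∧
    ∃ (x : M) (a : ℕ → MonoidAlgebra ℤ (FundamentalGroup M x)),
      (∀ N : ℕ, 2 ≤ N → ∀ c : ℝ, 0 < c → c ≤ 2 * Real.log N →
        ∃ C : NormalChain (FundamentalGroup M x), Filter.Tendsto (fun k => normalised C
          (Matrix.of fun _ _ => a N :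
            Matrix (Fin 1) (Fin 1) (MonoidAlgebra ℤ (FundamentalGroup M x))) k)
          Filter.atTop (𝓝 c)) ∧
      ∃ C : NormalChain (FundamentalGroup M x), ¬ ∃ L : EReal, Filter.Tendsto
        (fun k => ((normalised C (Matrix.of fun _ _ => a 10 :
          Matrix (Fin 1) (Fin 1) (MonoidAlgebra ℤ (FundamentalGroup M x))) k : ℝ) : EReal))
        Filter.atTop (𝓝 L) := by
  obtain ⟨g⟩ := Pool.Agent.Helper993.Metric.exists_metric (𝓡 3) Pool.Agent.Helper993.Nil.Quo
  refine ⟨Pool.Agent.Helper993.Nil.Quo, inferInstance, inferInstance, inferInstance, g,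
    inferInstance, inferInstance, inferInstance, Pool.Agent.Helper993.Nil.pt,
    Pool.Agent.Y226.FK.pullN Pool.Agent.Helper993.Nil.piEquiv, ?_, ?_⟩
  · intro N hN c hc0 hc
    exact Pool.Agent.Y226.FK.exists_chain Pool.Agent.Helper993.Nil.piEquiv hN hc0 hc
  · refine ⟨pullChain Pool.Agent.Helper993.Nil.piEquiv, ?_⟩
    have h := not_tendsto Pool.Agent.Helper993.Nil.piEquiv
    have h1 : Pool.Agent.Y226.FK.pullN Pool.Agent.Helper993.Nil.piEquiv 10 =
        pullElt Pool.Agent.Helper993.Nil.piEquiv := by
      unfold Pool.Agent.Y226.FK.pullN pullElt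
      norm_num
    rw [h1]
    exact h

end Pool.Agent.Results.MP_154d63_an.EveryLimitOccurs
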